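import Pool.Agent.X308.Sq.Main

/-!
# The defect of a union
-/

set_option autoImplicit false
set_option linter.unusedSectionVars false

namespace Pool.Agent.X308.Sq

open scoped TensorProduct PowerSeries Topology
open Pool.Agent.H826R3.SM Pool.Agent.TH671.DU

variable {k : Type} [Field k] {R : Type} [CommRing R] [Algebra k R] (I J : Ideal R)

theorem finrank_union (hI : Module.Finite k (R ⧸ I)) (hJ : Module.Finite k (R ⧸ J)) :
    Module.finrank k (R ⧸ I ⊓ J) + Module.finrank k (R ⧸ I ⊔ J) =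
      Module.finrank k (R ⧸ I) + Module.finrank k (R ⧸ J) := by
  let p : (R ⧸ I) →ₐ[k] R ⧸ I ⊔ J := Ideal.Quotient.factorₐ k le_sup_left
  let q : (R ⧸ J) →ₐ[k] R ⧸ I ⊔ J := Ideal.Quotient.factorₐ k le_sup_right
  let φ : ((R ⧸ I) × (R ⧸ J)) →ₗ[k] R ⧸ I ⊔ J :=
    p.toLinearMap.comp (LinearMap.fst k _ _) - q.toLinearMap.comp (LinearMap.snd k _ _)
  have h1 := LinearMap.finrank_range_add_finrank_ker φ
  have hsurj : LinearMap.range φ = ⊤ := by
    rw [LinearMap.range_eq_top]
    intro x
    obtain ⟨r, rfl⟩ := Ideal.Quotient.mk_surjective x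
    refine ⟨(Ideal.Quotient.mk I r, 0), ?_⟩
    change p (Ideal.Quotient.mk I r) - q 0 = _
    rw [map_zero, sub_zero]
    rfl
  have hker : LinearMap.ker φ = LinearMap.range (umap (k := k) I J).toLinearMap := by
    ext ⟨a, b⟩
    obtain ⟨r, rfl⟩ := Ideal.Quotient.mk_surjective a
    obtain ⟨s, rfl⟩ := Ideal.Quotient.mk_surjective b
    rw [LinearMap.mem_ker, LinearMap.mem_range]
    change (Ideal.Quotient.mk (I ⊔ J) r - Ideal.Quotient.mk (I ⊔ J) s = 0) ↔ _
    rw [← map_sub, Ideal.Quotient.eq_zero_iff_mem]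
    constructor
    · intro h
      obtain ⟨i, hi, j, hj, hij⟩ := Submodule.mem_sup.1 h
      refine ⟨Ideal.Quotient.mk _ (r - i), ?_⟩
      refine Prod.ext ?_ ?_
      · change Ideal.Quotient.mk I (r - i) = Ideal.Quotient.mk I r
        rw [Ideal.Quotient.eq]
        have : r - i - r = -i := by ring
        rw [this]
        exact I.neg_mem hi
      · change Ideal.Quotient.mk J (r - i) = Ideal.Quotient.mk J s
        rw [Ideal.Quotient.eq]
        have : r - i - s = j := by
          have : r - s = i + j := hij.symm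
          linear_combination this
        rw [this]
        exact hj
    · rintro ⟨x, hx⟩
      obtain ⟨u, rfl⟩ := Ideal.Quotient.mk_surjective x
      have g1 : Ideal.Quotient.mk I u = Ideal.Quotient.mk I r := congrArg Prod.fst hx
      have g2 : Ideal.Quotient.mk J u = Ideal.Quotient.mk J s := congrArg Prod.snd hx
      rw [Ideal.Quotient.eq] at g1 g2
      have : r - s = -(u - r) + (u - s) := by ring
      rw [this]
      exact Submodule.add_mem_sup (I.neg_mem g1) g2
  rw [hsurj, finrank_top, hker, LinearMap.finrank_range_of_inj (umap_injective I J),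
    Module.finrank_prod] at h1
  omega

/-- `δ(Γ₁ ∪ Γ₂) ≤ δ(Γ₁) + δ(Γ₂) + deg(Γ₁ ∩ Γ₂)` -/
theorem defect_union [IsAlgClosed k] (hI : Module.Finite k (R ⧸ I))
    (hJ : Module.Finite k (R ⧸ J)) : defect k (R ⧸ I ⊓ J) ≤
      defect k (R ⧸ I) + defect k (R ⧸ J) + Module.finrank k (R ⧸ I ⊔ J) := by
  have hf := finite_inf I J hI hJ
  have h1 := mdeg_inf I J hI hJ
  rw [← fadd k (R ⧸ I ⊓ J), ← fadd k (R ⧸ I), ← fadd k (R ⧸ J)] at h1
  have h2 := finrank_union I J hI hJ
  omega

end Pool.Agent.X308.Sq
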