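import Pool.Agent.TH671.DU.Red

/-!
# Subalgebras and the least degree of a smoothable scheme containing `Spec A`
-/

set_option autoImplicit false
set_option linter.unusedSectionVars false

namespace Pool.Agent.X308.Sq

open scoped TensorProduct PowerSeries Topology
open Pool.Agent.H826R3.SM Pool.Agent.TH671.DU
open Filter

variable {k : Type} [Field k]

section basic

variable {A B : Type} [CommRing A] [Algebra k A] [CommRing B] [Algebra k B]

theorem fam_of_injective {D : ℕ} (h : Fam k B D) (f : A →ₐ[k] B) (hf : Function.Injective f) :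
    Fam k A D := by
  obtain ⟨𝒜, c1, c2, h1, h2, h3, h4, π, h5, h6⟩ := h
  let S : Subalgebra k⟦X⟧ 𝒜 :=
    { carrier := {x | ∃ a, f a = π x}
      mul_mem' := by
        rintro x y ⟨a, ha⟩ ⟨b, hb⟩
        exact ⟨a * b, by rw [map_mul, map_mul, ha, hb]⟩
      add_mem' := by
        rintro x y ⟨a, ha⟩ ⟨b, hb⟩
        exact ⟨a + b, by rw [map_add, map_add, ha, hb]⟩
      algebraMap_mem' := fun c =>
        ⟨algebraMap k A (PowerSeries.constantCoeff c), by rw [h6, f.commutes]⟩ }
  have hnoeth : IsNoetherian k⟦X⟧ 𝒜 := isNoetherian_of_isNoetherianRing_of_finite k⟦X⟧ 𝒜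
  have hfinS : Module.Finite k⟦X⟧ S :=
    Module.Finite.of_injective S.val.toLinearMap Subtype.val_injective
  have htor𝒜 : Module.IsTorsionFree k⟦X⟧ 𝒜 := inferInstance
  have htor : Module.IsTorsionFree k⟦X⟧ S :=
    Function.Injective.moduleIsTorsionFree (f := S.val.toLinearMap) Subtype.val_injective
      (fun r x => by simp)
  have hfree : Module.Free k⟦X⟧ S := Module.free_of_finite_type_torsion_free'
  have hflat : Module.Flat k⟦X⟧ (LL k) := Module.Flat.trans k⟦X⟧ (LaurentSeries k) (LL k)
  have hred : IsReduced (LL k ⊗[k⟦X⟧] S) := by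
    let g : (LL k ⊗[k⟦X⟧] S) →ₐ[LL k] (LL k ⊗[k⟦X⟧] 𝒜) :=
      Algebra.TensorProduct.map (AlgHom.id _ _) S.val
    have hg : Function.Injective g :=
      Module.Flat.lTensor_preserves_injective_linearMap S.val.toLinearMap Subtype.val_injective
    exact isReduced_of_injective g hg
  have hrk : Module.finrank k⟦X⟧ S ≤ D :=
    (LinearMap.finrank_le_finrank_of_injective (f := S.val.toLinearMap)
      Subtype.val_injective).trans h4
  choose ρ hρ using fun x : S => (x.2 : ∃ a, f a = π (x : 𝒜))
  refine ⟨S, inferInstance, inferInstance, hfinS, hfree, hred, hrk,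
    { toFun := ρ
      map_one' := hf (by rw [hρ, map_one]; simp)
      map_mul' := fun x y => hf (by rw [hρ, map_mul, hρ, hρ]; simp)
      map_zero' := hf (by rw [hρ, map_zero]; simp)
      map_add' := fun x y => hf (by rw [hρ, map_add, hρ, hρ]; simp) }, ?_, ?_⟩
  · intro a
    obtain ⟨x, hx⟩ := h5 (f a)
    exact ⟨⟨x, a, hx.symm⟩, hf (by
      change f (ρ _) = _
      rw [hρ, hx])⟩
  · intro c
    apply hf
    change f (ρ _) = _
    rw [hρ, f.commutes]
    exact h6 c

/-- the map of the powers -/
noncomputable def pmap (f : A →ₐ[k] B) (n : ℕ) : Pow k A n →ₐ[k] Pow k B n :=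
  powLift fun i => (sg k B i).comp f

theorem pmap_linear (f : A →ₐ[k] B) (n : ℕ) :
    (pmap f n).toLinearMap = PiTensorProduct.map fun _ : Fin n => f.toLinearMap := by
  refine PiTensorProduct.ext (MultilinearMap.ext fun x => ?_)
  simp only [LinearMap.compMultilinearMap_apply, PiTensorProduct.map_tprod, AlgHom.toLinearMap_apply]
  rw [tprod_eq_prod_single, map_prod, tprod_eq_prod_single]
  refine Finset.prod_congr rfl fun i _ => ?_
  exact powLift_single _ i (x i)

theorem pmap_injective (f : A →ₐ[k] B) (hf : Function.Injective f) (n : ℕ) :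
    Function.Injective (pmap f n) := by
  obtain ⟨g, hg⟩ := LinearMap.exists_leftInverse_of_injective f.toLinearMap
    (LinearMap.ker_eq_bot.2 hf)
  have h1 : (PiTensorProduct.map fun _ : Fin n => g) ∘ₗ (pmap f n).toLinearMap =
      LinearMap.id := by
    rw [pmap_linear, ← PiTensorProduct.map_comp]
    simp only [hg]
    exact PiTensorProduct.map_id
  intro x y hxy
  have h2 := congrArg (PiTensorProduct.map fun _ : Fin n => g) hxy
  have h3 : ∀ z, (PiTensorProduct.map fun _ : Fin n => g) (pmap f n z) = z := fun z =>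
    LinearMap.congr_fun h1 z
  rwa [h3, h3] at h2

theorem growth_of_injective {x : ℝ} (h : Growth k B x) (f : A →ₐ[k] B)
    (hf : Function.Injective f) : Growth k A x := by
  obtain ⟨C, hC, hG⟩ := h
  refine ⟨C, hC, fun n => ?_⟩
  obtain ⟨D, hD1, hD2⟩ := hG n
  exact ⟨D, hD1, fam_of_injective hD2 (pmap f n) (pmap_injective f hf n)⟩

end basic

section alg

variable [IsAlgClosed k]

variable {A B : Type} [CommRing A] [Algebra k A] [Module.Finite k A]
  [CommRing B] [Algebra k B] [Module.Finite k B]

theorem mdeg_of_injective (f : A →ₐ[k] B) (hf : Function.Injective f) :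
    mdeg k A ≤ mdeg k B := by
  obtain ⟨D, hD⟩ := exists_fam (k := k) B
  exact mdeg_le (fam_of_injective (mdeg_spec hD) f hf)

theorem mdeg_pow_of_injective (f : A →ₐ[k] B) (hf : Function.Injective f) (n : ℕ) :
    mdeg k (Pow k A n) ≤ mdeg k (Pow k B n) :=
  mdeg_of_injective (pmap f n) (pmap_injective f hf n)

theorem mdeg_tensor (A B : Type) [CommRing A] [Algebra k A] [Module.Finite k A]
    [CommRing B] [Algebra k B] [Module.Finite k B] :
    mdeg k (A ⊗[k] B) ≤ mdeg k A * mdeg k B := by
  obtain ⟨D, hD⟩ := exists_fam (k := k) A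
  obtain ⟨E, hE⟩ := exists_fam (k := k) B
  refine mdeg_le (Fam.join (mdeg_spec hD) (mdeg_spec hE)
    Algebra.TensorProduct.includeLeft Algebra.TensorProduct.includeRight ?_)
  rw [eq_top_iff]
  rintro x -
  induction x using TensorProduct.induction_on with
  | zero => exact Subalgebra.zero_mem _
  | tmul a b =>
    have h1 : (a ⊗ₜ[k] b : A ⊗[k] B) = (a ⊗ₜ 1) * (1 ⊗ₜ b) := by simp
    rw [h1]
    exact Subalgebra.mul_mem _
      ((le_sup_left : (Algebra.TensorProduct.includeLeft : A →ₐ[k] A ⊗[k] B).range ≤ _) ⟨a, rfl⟩)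
      ((le_sup_right : (Algebra.TensorProduct.includeRight : B →ₐ[k] A ⊗[k] B).range ≤ _) ⟨b, rfl⟩)
  | add x y hx hy => exact Subalgebra.add_mem _ hx hy

theorem mdeg_pow_tensor (A B : Type) [CommRing A] [Algebra k A] [Module.Finite k A]
    [CommRing B] [Algebra k B] [Module.Finite k B] (n : ℕ) :
    mdeg k (Pow k (A ⊗[k] B) n) ≤ mdeg k (Pow k A n) * mdeg k (Pow k B n) := by
  obtain ⟨D, hD⟩ := exists_fam (k := k) (Pow k A n)
  obtain ⟨E, hE⟩ := exists_fam (k := k) (Pow k B n)
  refine mdeg_le (Fam.join (mdeg_spec hD) (mdeg_spec hE)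
    (powLift fun i => (sg k (A ⊗[k] B) i).comp Algebra.TensorProduct.includeLeft)
    (powLift fun i => (sg k (A ⊗[k] B) i).comp Algebra.TensorProduct.includeRight) ?_)
  refine pow_eq_top _ fun i x => ?_
  induction x using TensorProduct.induction_on with
  | zero => rw [map_zero]; exact Subalgebra.zero_mem _
  | tmul a b =>
    have h1 : (a ⊗ₜ[k] b : A ⊗[k] B) = (a ⊗ₜ 1) * (1 ⊗ₜ b) := by simp
    rw [h1, map_mul]
    refine Subalgebra.mul_mem _ ?_ ?_
    · exact (le_sup_left : (powLift fun i =>
        (sg k (A ⊗[k] B) i).comp Algebra.TensorProduct.includeLeft).range ≤ _)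
        ⟨sg k A i a, powLift_single _ i a⟩
    · exact (le_sup_right : (powLift fun i =>
        (sg k (A ⊗[k] B) i).comp Algebra.TensorProduct.includeRight).range ≤ _)
        ⟨sg k B i b, powLift_single _ i b⟩
  | add x y hx hy => rw [map_add]; exact Subalgebra.add_mem _ hx hy

variable [Nontrivial A] [Nontrivial B]

theorem rate_of_injective (f : A →ₐ[k] B) (hf : Function.Injective f) :
    rate k A ≤ rate k B := by
  have h1 := one_le_rate (k := k) B
  refine le_of_forall_pos_le_add fun η hη => ?_
  exact rate_le_of_growth (by linarith) (growth_of_injective (growth_of_rate B η hη) f hf)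

end alg

end Pool.Agent.X308.Sq
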