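import Pool.Agent.X308.Sq.Basic
import Pool.Agent.TH671.DU.Poly

/-!
# Subquotients, unions and products
-/

set_option autoImplicit false
set_option linter.unusedSectionVars false

namespace Pool.Agent.X308.Sq

open scoped TensorProduct PowerSeries Topology
open Pool.Agent.H826R3.SM Pool.Agent.TH671.DU
open Filter

/-- `A` is isomorphic to a quotient of a subalgebra of `B` -/
def Subquotient (k : Type) [Field k] (A B : Type) [CommRing A] [Algebra k A] [CommRing B]
    [Algebra k B] : Prop :=
  ∃ (S : Subalgebra k B) (g : S →ₐ[k] A), Function.Surjective g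

variable {k : Type} [Field k]

section basic

variable {A B : Type} [CommRing A] [Algebra k A] [CommRing B] [Algebra k B]

theorem fam_subquotient {D : ℕ} (h : Subquotient k A B) (hB : Fam k B D) : Fam k A D := by
  obtain ⟨S, g, hg⟩ := h
  exact (fam_of_injective hB S.val Subtype.val_injective).of_surjective g hg

theorem fam_pow_subquotient {D n : ℕ} (h : Subquotient k A B) (hB : Fam k (Pow k B n) D) :
    Fam k (Pow k A n) D := by
  obtain ⟨S, g, hg⟩ := h
  have h1 := fam_of_injective hB (pmap S.val n) (pmap_injective S.val Subtype.val_injective n)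
  refine h1.of_pow (fun i => (sg k A i).comp g) fun T hT => pow_eq_top T fun i a => ?_
  obtain ⟨s, rfl⟩ := hg a
  exact hT i s

theorem growth_subquotient {x : ℝ} (h : Subquotient k A B) (hB : Growth k B x) :
    Growth k A x := by
  obtain ⟨C, hC, hG⟩ := hB
  refine ⟨C, hC, fun n => ?_⟩
  obtain ⟨D, hD1, hD2⟩ := hG n
  exact ⟨D, hD1, fam_pow_subquotient h hD2⟩

theorem growth_tensor {x y : ℝ} (hA : Growth k A x) (hB : Growth k B y) :
    Growth k (A ⊗[k] B) (x * y) := by
  obtain ⟨C₁, hC₁, G₁⟩ := hA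
  obtain ⟨C₂, hC₂, G₂⟩ := hB
  refine ⟨C₁ * C₂, mul_nonneg hC₁ hC₂, fun n => ?_⟩
  obtain ⟨D, hD1, hD2⟩ := G₁ n
  obtain ⟨E, hE1, hE2⟩ := G₂ n
  refine ⟨D * E, ?_, ?_⟩
  · push_cast
    have h0 : (0 : ℝ) ≤ C₁ * x ^ n := (Nat.cast_nonneg D).trans hD1
    calc (D : ℝ) * E ≤ (C₁ * x ^ n) * (C₂ * y ^ n) :=
          mul_le_mul hD1 hE1 (Nat.cast_nonneg E) h0
      _ = C₁ * C₂ * (x * y) ^ n := by rw [mul_pow]; ring
  · refine Fam.join hD2 hE2
      (powLift fun i => (sg k (A ⊗[k] B) i).comp Algebra.TensorProduct.includeLeft)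
      (powLift fun i => (sg k (A ⊗[k] B) i).comp Algebra.TensorProduct.includeRight) ?_
    refine pow_eq_top _ fun i x => ?_
    induction x using TensorProduct.induction_on with
    | zero => rw [map_zero]; exact Subalgebra.zero_mem _
    | tmul a b =>
      have h1 : (a ⊗ₜ[k] b : A ⊗[k] B) = (a ⊗ₜ 1) * (1 ⊗ₜ b) := by simp
      rw [h1, map_mul]
      refine Subalgebra.mul_mem _ ?_ ?_
      · exact (le_sup_left : (powLift fun i =>
          (sg k (A ⊗[k] B) i).comp Algebra.TensorProduct.includeLeft).range ≤ _)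
          ⟨sg k A i a, powLift_single _ i a⟩
      · exact (le_sup_right : (powLift fun i =>
          (sg k (A ⊗[k] B) i).comp Algebra.TensorProduct.includeRight).range ≤ _)
          ⟨sg k B i b, powLift_single _ i b⟩
    | add x y hx hy => rw [map_add]; exact Subalgebra.add_mem _ hx hy

end basic

section ideals

variable {R : Type} [CommRing R] [Algebra k R] (I J : Ideal R)

/-- the map to the two parts of a union -/
noncomputable def umap : (R ⧸ I ⊓ J) →ₐ[k] (R ⧸ I) × (R ⧸ J) :=
  (Ideal.Quotient.factorₐ k (inf_le_left : I ⊓ J ≤ I)).prod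
    (Ideal.Quotient.factorₐ k (inf_le_right : I ⊓ J ≤ J))

theorem umap_injective : Function.Injective (umap (k := k) I J) := by
  rw [injective_iff_map_eq_zero]
  intro x hx
  obtain ⟨r, rfl⟩ := Ideal.Quotient.mk_surjective x
  have h1 : (Ideal.Quotient.mk I r : R ⧸ I) = 0 := congrArg Prod.fst hx
  have h2 : (Ideal.Quotient.mk J r : R ⧸ J) = 0 := congrArg Prod.snd hx
  rw [Ideal.Quotient.eq_zero_iff_mem] at h1 h2 ⊢
  exact ⟨h1, h2⟩

theorem finite_inf (hI : Module.Finite k (R ⧸ I)) (hJ : Module.Finite k (R ⧸ J)) :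
    Module.Finite k (R ⧸ I ⊓ J) :=
  Module.Finite.of_injective (umap (k := k) I J).toLinearMap (umap_injective I J)

end ideals

variable [IsAlgClosed k]

section subq

variable (A B : Type) [CommRing A] [Algebra k A] [Module.Finite k A]
  [CommRing B] [Algebra k B] [Module.Finite k B]

theorem mdeg_pow_subquotient (h : Subquotient k A B) (n : ℕ) :
    mdeg k (Pow k A n) ≤ mdeg k (Pow k B n) := by
  obtain ⟨D, hD⟩ := exists_fam (k := k) (Pow k B n)
  exact mdeg_le (fam_pow_subquotient h (mdeg_spec hD))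

theorem sum_pow (n : ℕ) :
    Module.finrank k A ^ n + defect k (Pow k A n) = mdeg k (Pow k A n) := by
  rw [← fadd k (Pow k A n), finrank_Pow']

theorem isLeast_subquotient :
    IsLeast {D : ℕ | ∃ (Z : Type) (_ : CommRing Z) (_ : Algebra k Z), Module.Finite k Z ∧
      Smoothable k Z ∧ Module.finrank k Z = D ∧ Subquotient k A Z}
      (Module.finrank k A + defect k A) := by
  constructor
  · obtain ⟨D, hD⟩ := exists_fam (k := k) A
    obtain ⟨D', -, hD'⟩ := hD.inSmoothable
    obtain ⟨Z, c1, c2, h1, h2, h3, f, hf⟩ := defect_spec hD'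
    refine ⟨Z, c1, c2, h1, h2, h3, ⊤, f.comp (⊤ : Subalgebra k Z).val, fun a => ?_⟩
    obtain ⟨z, hz⟩ := hf a
    exact ⟨⟨z, trivial⟩, hz⟩
  · rintro D ⟨Z, c1, c2, h1, h2, h3, h4⟩
    have h5 : InSmoothable k Z D :=
      ⟨Z, c1, c2, h1, h2, h3, AlgHom.id k Z, Function.surjective_id⟩
    rw [fadd k A]
    exact mdeg_le (fam_subquotient h4 h5.fam)

theorem rate_subquotient [Nontrivial A] [Nontrivial B] (h : Subquotient k A B) :
    rate k A ≤ rate k B := by
  have h1 := one_le_rate (k := k) B
  refine le_of_forall_pos_le_add fun η hη => ?_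
  exact rate_le_of_growth (by linarith) (growth_subquotient h (growth_of_rate B η hη))

end subq

section prod

variable (A B : Type) [CommRing A] [Algebra k A] [Module.Finite k A] [Nontrivial A]
  [CommRing B] [Algebra k B] [Module.Finite k B] [Nontrivial B]

theorem nontrivial_tensor : Nontrivial (A ⊗[k] B) := by
  apply Module.nontrivial_of_finrank_pos (R := k)
  rw [Module.finrank_tensorProduct]
  exact Nat.mul_pos Module.finrank_pos Module.finrank_pos

theorem rate_tensor_le : rate k (A ⊗[k] B) ≤ rate k A * rate k B := by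
  have hnt := nontrivial_tensor (k := k) A B
  have h1 := one_le_rate (k := k) A
  have h2 := one_le_rate (k := k) B
  have h3 : Continuous fun η : ℝ => (rate k A + η) * (rate k B + η) := by fun_prop
  have h4 : Tendsto (fun η : ℝ => (rate k A + η) * (rate k B + η)) (𝓝[>] 0)
      (𝓝 ((rate k A + 0) * (rate k B + 0))) := (h3.tendsto 0).mono_left nhdsWithin_le_nhds
  rw [add_zero, add_zero] at h4
  refine ge_of_tendsto h4 (eventually_nhdsWithin_of_forall fun η hη => ?_)
  have hη' : (0 : ℝ) < η := hη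
  exact rate_le_of_growth (by positivity)
    (growth_tensor (growth_of_rate A η hη') (growth_of_rate B η hη'))

theorem qOne_tensor (hA : QOne k A) (hB : QOne k B) : QOne k (A ⊗[k] B) := by
  have hnt := nontrivial_tensor (k := k) A B
  rw [qOne_iff_rate] at hA hB ⊢
  refine le_antisymm ?_ (finrank_le_rate (A ⊗[k] B))
  refine (rate_tensor_le A B).trans ?_
  rw [hA, hB, Module.finrank_tensorProduct]
  push_cast
  exact le_rfl

end prod

section unions

variable {R : Type} [CommRing R] [Algebra k R] (I J : Ideal R)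

theorem mdeg_inf (hI : Module.Finite k (R ⧸ I)) (hJ : Module.Finite k (R ⧸ J)) :
    mdeg k (R ⧸ I ⊓ J) ≤ mdeg k (R ⧸ I) + mdeg k (R ⧸ J) := by
  have hf := finite_inf I J hI hJ
  rw [← mdeg_prod' k]
  exact mdeg_of_injective (umap I J) (umap_injective I J)

theorem mdeg_pow_inf (hI : Module.Finite k (R ⧸ I)) (hJ : Module.Finite k (R ⧸ J)) (n : ℕ) :
    mdeg k (Pow k (R ⧸ I ⊓ J) n) ≤ ∑ r ∈ Finset.range (n + 1), n.choose r *
      (mdeg k (Pow k (R ⧸ I) r) * mdeg k (Pow k (R ⧸ J) (n - r))) := by
  have hf := finite_inf I J hI hJ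
  refine (mdeg_pow_of_injective (umap I J) (umap_injective I J) n).trans ?_
  rw [mdeg_pow_prod]
  refine Finset.sum_le_sum fun r _ => Nat.mul_le_mul_left _ ?_
  exact mdeg_tensor _ _

theorem rate_inf (hI : Module.Finite k (R ⧸ I)) (hJ : Module.Finite k (R ⧸ J))
    (hI' : I ≠ ⊤) (hJ' : J ≠ ⊤) :
    rate k (R ⧸ I ⊓ J) ≤ rate k (R ⧸ I) + rate k (R ⧸ J) := by
  have hf := finite_inf I J hI hJ
  have n1 : Nontrivial (R ⧸ I) := Ideal.Quotient.nontrivial_iff.2 hI'
  have n2 : Nontrivial (R ⧸ J) := Ideal.Quotient.nontrivial_iff.2 hJ'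
  have n3 : Nontrivial (R ⧸ I ⊓ J) :=
    Ideal.Quotient.nontrivial_iff.2 fun h => hI' (top_le_iff.1 (h ▸ inf_le_left))
  exact (rate_of_injective (umap I J) (umap_injective I J)).trans (rate_prod_le _ _)

end unions

section crit

variable (A : Type) [CommRing A] [Algebra k A] [Module.Finite k A] [Nontrivial A]

theorem nontrivial_pow (N : ℕ) : Nontrivial (Pow k A N) := by
  apply Module.nontrivial_of_finrank_pos (R := k)
  rw [finrank_Pow']
  exact Nat.pow_pos Module.finrank_pos

theorem rate_pow (N : ℕ) : rate k (Pow k A N) = rate k A ^ N := by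
  have hnt := nontrivial_pow (k := k) A N
  have h1 := rate_powUnion (k := k) A (fun _ : Fin 1 => N) le_rfl
  rw [Fin.sum_univ_one] at h1
  rw [← h1]
  have hnt' : Nontrivial (PowUnion k A fun _ : Fin 1 => N) := inferInstance
  exact (rate_congr (AlgEquiv.funUnique k (Fin 1) (Pow k A N))).symm

theorem qOne_iff_subquotient : QOne k A ↔ ∀ η : ℝ, 0 < η →
    ∃ (N : ℕ) (Z : Type) (_ : CommRing Z) (_ : Algebra k Z), 1 ≤ N ∧ Module.Finite k Z ∧
      Nontrivial Z ∧ QOne k Z ∧ Subquotient k (Pow k A N) Z ∧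
      (Module.finrank k Z : ℝ) ≤ ((1 + η) * Module.finrank k A) ^ N := by
  have hd : (0 : ℝ) < Module.finrank k A := by
    exact_mod_cast (Module.finrank_pos (R := k) (M := A))
  constructor
  · intro h η hη
    have hnt := nontrivial_pow (k := k) A 1
    have h2 : QOne k (Pow k A 1) := by
      rw [qOne_iff_rate] at h ⊢
      rw [rate_pow, finrank_Pow', h, pow_one, pow_one]
    refine ⟨1, Pow k A 1, inferInstance, inferInstance, le_rfl, inferInstance, hnt, h2,
      ⟨⊤, (⊤ : Subalgebra k (Pow k A 1)).val, fun a => ⟨⟨a, trivial⟩, rfl⟩⟩, ?_⟩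
    rw [finrank_Pow', pow_one, pow_one]
    nlinarith
  · intro h
    rw [qOne_iff_rate]
    refine le_antisymm ?_ (finrank_le_rate A)
    have h1 : ∀ η : ℝ, 0 < η → rate k A ≤ (1 + η) * Module.finrank k A := by
      intro η hη
      obtain ⟨N, Z, c1, c2, hN, hf, hnt, hQ, hS, hle⟩ := h η hη
      have hnt2 := nontrivial_pow (k := k) A N
      have h3 := rate_subquotient (k := k) (Pow k A N) Z hS
      rw [rate_pow, (qOne_iff_rate Z).1 hQ] at h3
      have h4 := h3.trans hle
      exact le_of_pow_le_pow_left₀ (by omega) (by positivity) h4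
    have h3 : Continuous fun η : ℝ => (1 + η) * (Module.finrank k A : ℝ) := by fun_prop
    have h4 : Tendsto (fun η : ℝ => (1 + η) * (Module.finrank k A : ℝ)) (𝓝[>] 0)
        (𝓝 ((1 + 0) * (Module.finrank k A : ℝ))) := (h3.tendsto 0).mono_left nhdsWithin_le_nhds
    rw [add_zero, one_mul] at h4
    exact ge_of_tendsto h4 (eventually_nhdsWithin_of_forall fun η hη => h1 η hη)

end crit

/-- **Reduction of Q1 to indecomposable schemes.** -/
theorem qOne_of_indec (h : ∀ (A : Type) [CommRing A] [Algebra k A] [Module.Finite k A]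
    [IsLocalRing A], (∀ (B C : Type) [CommRing B] [Algebra k B] [Module.Finite k B] [CommRing C]
      [Algebra k C] [Module.Finite k C], 2 ≤ Module.finrank k B → 2 ≤ Module.finrank k C →
        IsEmpty (A ≃ₐ[k] B ⊗[k] C)) → QOne k A) (n : ℕ) :
    ∀ (A : Type) [CommRing A] [Algebra k A] [Module.Finite k A] [Nontrivial A],
      Module.finrank k A = n → QOne k A := by
  induction n using Nat.strong_induction_on with
  | _ n ih =>
    intro A _ _ _ _ hn
    by_cases hloc : IsLocalRing A
    · by_cases hi : ∀ (B C : Type) [CommRing B] [Algebra k B] [Module.Finite k B] [CommRing C]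
          [Algebra k C] [Module.Finite k C], 2 ≤ Module.finrank k B → 2 ≤ Module.finrank k C →
            IsEmpty (A ≃ₐ[k] B ⊗[k] C)
      · exact h A hi
      push Not at hi
      obtain ⟨B, C, _, _, _, _, _, _, hB, hC, ⟨e⟩⟩ := hi
      have hnB : Nontrivial B := Module.nontrivial_of_finrank_pos (R := k) (by omega)
      have hnC : Nontrivial C := Module.nontrivial_of_finrank_pos (R := k) (by omega)
      have hmul : n = Module.finrank k B * Module.finrank k C := by
        rw [← hn, e.toLinearEquiv.finrank_eq, Module.finrank_tensorProduct]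
      have g1 := ih _ (by nlinarith) B rfl
      have g2 := ih _ (by nlinarith) C rfl
      have hnt := nontrivial_tensor (k := k) B C
      exact (qOne_congr e).2 (qOne_tensor B C g1 g2)
    have hart : IsArtinianRing A := IsArtinianRing.of_finite k A
    obtain ⟨e, he, hu, hu'⟩ := exists_idem hloc
    let f : A →ₐ[k] (A ⧸ Ideal.span {e}) × (A ⧸ Ideal.span {1 - e}) :=
      (Ideal.Quotient.mkₐ k (Ideal.span {e})).prod (Ideal.Quotient.mkₐ k (Ideal.span {1 - e}))
    have hf : Function.Bijective f := crt_bijective e he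
    let F := AlgEquiv.ofBijective f hf
    have hnt1 : Nontrivial (A ⧸ Ideal.span {e}) := by
      rw [Ideal.Quotient.nontrivial_iff, Ne, Ideal.span_singleton_eq_top]
      exact hu
    have hnt2 : Nontrivial (A ⧸ Ideal.span {1 - e}) := by
      rw [Ideal.Quotient.nontrivial_iff, Ne, Ideal.span_singleton_eq_top]
      exact hu'
    have hsum : Module.finrank k A = Module.finrank k (A ⧸ Ideal.span {e}) +
        Module.finrank k (A ⧸ Ideal.span {1 - e}) := by
      rw [F.toLinearEquiv.finrank_eq, Module.finrank_prod]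
    have hp1 : 0 < Module.finrank k (A ⧸ Ideal.span {e}) := Module.finrank_pos
    have hp2 : 0 < Module.finrank k (A ⧸ Ideal.span {1 - e}) := Module.finrank_pos
    have g1 := ih _ (by omega) (A ⧸ Ideal.span {e}) rfl
    have g2 := ih _ (by omega) (A ⧸ Ideal.span {1 - e}) rfl
    exact (qOne_congr F).2 (qOne_prod _ _ g1 g2)

end Pool.Agent.X308.Sq
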